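import Pool.Agent.Lib.MP_524519_ag.DU5.AB.Iface

/-! # DU5/AB, module AST: the ideal `A` is stable under `X_i ∂_j` -/

set_option autoImplicit false

namespace Pool.Agent.DU5.AB.H47

open MvPowerSeries Pool.Agent.DU5 Pool.Agent.DU5.AB

theorem tot_update {p : ℕ} (a : Fin 3 → Fin p) (i : Fin 3) (b : Fin p) :
    tot (Function.update a i b) + (a i : ℕ) = tot a + (b : ℕ) := by
  unfold tot
  rw [Fin.sum_univ_three, Fin.sum_univ_three]
  fin_cases i <;> simp <;> omega

theorem tot_le {p : ℕ} (a : Fin 3 → Fin p) : tot a ≤ 3 * (p - 1) := by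
  unfold tot
  rw [Fin.sum_univ_three]
  have h0 := (a 0).isLt
  have h1 := (a 1).isLt
  have h2 := (a 2).isLt
  omega

theorem ast (hPX : PXStatement) : ASTStatement := by
  intro p _ k _ _ _ I hI G hG i j a
  have hp : 0 < p := (Fact.out : p.Prime).pos
  -- the coefficients of the derivative
  have key : ∀ c : Fin 3 → Fin p, ((c j : ℕ) + 1 = p ∧ pc p c (pderiv k j G) = 0) ∨
      ((c j : ℕ) + 1 < p ∧ tot c + 1 ≤ 3 * (p - 1) ∧
        pc p c (pderiv k j G) ∈ I (3 * (p - 1) - (tot c + 1))) := by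
    intro c
    obtain ⟨-, -, h3, h4⟩ := hPX p k G c j
    rcases Nat.lt_or_ge ((c j : ℕ) + 1) p with h | h
    · refine Or.inr ⟨h, ?_⟩
      have ht := tot_update c j ⟨(c j : ℕ) + 1, h⟩
      have ht' : tot (Function.update c j ⟨(c j : ℕ) + 1, h⟩) = tot c + 1 := by
        simp only at ht
        omega
      have hle := tot_le (Function.update c j ⟨(c j : ℕ) + 1, h⟩)
      rw [ht'] at hle
      refine ⟨hle, ?_⟩
      rw [h3 ⟨(c j : ℕ) + 1, h⟩ rfl, ← ht']
      exact Ideal.mul_mem_left _ _ (hG _)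
    · have h' : (c j : ℕ) + 1 = p := by
        have := (c j).isLt
        omega
      exact Or.inl ⟨h', h4 h'⟩
  obtain ⟨h1, h2, -, -⟩ := hPX p k (pderiv k j G) a i
  rcases Nat.eq_zero_or_pos (a i : ℕ) with h | h
  · have hb : p - 1 < p := by omega
    have ht := tot_update a i ⟨p - 1, hb⟩
    simp only at ht
    rw [h2 ⟨p - 1, hb⟩ h (by simp only; omega)]
    rcases key (Function.update a i ⟨p - 1, hb⟩) with ⟨-, h0⟩ | ⟨-, hle, hm⟩
    · rw [h0, mul_zero]
      exact Ideal.zero_mem _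
    · have := hI _ i _ hm
      have e : 3 * (p - 1) - (tot (Function.update a i ⟨p - 1, hb⟩) + 1) + p =
          3 * (p - 1) - tot a := by omega
      rwa [e] at this
  · have hb : (a i : ℕ) - 1 < p := by
      have := (a i).isLt
      omega
    have ht := tot_update a i ⟨(a i : ℕ) - 1, hb⟩
    simp only at ht
    rw [h1 ⟨(a i : ℕ) - 1, hb⟩ (by simp only; omega)]
    rcases key (Function.update a i ⟨(a i : ℕ) - 1, hb⟩) with ⟨-, h0⟩ | ⟨-, hle, hm⟩
    · rw [h0]
      exact Ideal.zero_mem _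
    · have e : tot (Function.update a i ⟨(a i : ℕ) - 1, hb⟩) + 1 = tot a := by omega
      rwa [e] at hm

end Pool.Agent.DU5.AB.H47
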